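import Pool.Agent.Helper91.LC.Spec

/-!
# LC-5b: first facts on the local inverse and on the Bloch potential
-/

set_option autoImplicit false
set_option linter.unusedVariables false

namespace Pool.Agent.Helper39.LC

open Complex Metric Set
open Pool.Agent.Helper91.LC

theorem lt_one_of_lt {x : ℝ} (hx : x < 1 / √3) : x < 1 := by
  refine hx.trans ?_
  rw [div_lt_one (by positivity)]
  exact Real.lt_sqrt_of_sq_lt (by norm_num)

theorem deriv_mul {F f : ℂ → ℂ} (hG : Good F) (hI : Inv F f) {v : ℂ}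
    (hv : v ∈ ball (0 : ℂ) (√3 / 4)) : deriv F (f v) * deriv f v = 1 := by
  have h1 : DifferentiableAt ℂ f v := hI.diff.differentiableAt (isOpen_ball.mem_nhds hv)
  have h2 : f v ∈ ball (0 : ℂ) 1 := by
    rw [mem_ball_zero_iff]
    exact lt_one_of_lt (hI.lt v hv)
  have h3 : DifferentiableAt ℂ F (f v) := hG.diff.differentiableAt (isOpen_ball.mem_nhds h2)
  have h4 : deriv (F ∘ f) v = deriv F (f v) * deriv f v := deriv_comp v h3 h1
  have h5 : (F ∘ f) =ᶠ[nhds v] id := by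
    filter_upwards [isOpen_ball.mem_nhds hv] with w hw
    exact hI.eq w hw
  rw [← h4, h5.deriv_eq, deriv_id]

theorem P_eq {F f : ℂ → ℂ} (hG : Good F) (hI : Inv F f) {v : ℂ}
    (hv : v ∈ ball (0 : ℂ) (√3 / 4)) :
    P F (f v) = Real.log ‖deriv f v‖ - Real.log (1 - ‖f v‖ ^ 2) := by
  have h1 := deriv_mul hG hI hv
  have h2 : ‖deriv F (f v)‖ * ‖deriv f v‖ = 1 := by
    rw [← norm_mul, h1, norm_one]
  have h3 : ‖deriv F (f v)‖ ≠ 0 := left_ne_zero_of_mul_eq_one h2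
  have h4 : ‖deriv f v‖ ≠ 0 := right_ne_zero_of_mul_eq_one h2
  have h5 : ‖f v‖ < 1 := lt_one_of_lt (hI.lt v hv)
  have h6 : 1 - ‖f v‖ ^ 2 ≠ 0 := by
    have := norm_nonneg (f v)
    nlinarith
  have h7 : Real.log ‖deriv F (f v)‖ + Real.log ‖deriv f v‖ = 0 := by
    rw [← Real.log_mul h3 h4, h2, Real.log_one]
  unfold P
  rw [Real.log_mul h3 h6]
  linarith

theorem P_nonneg {F : ℂ → ℂ} (hG : Good F) {z : ℂ} (hz : ‖z‖ < 1 / √3) : 0 ≤ P F z := by
  have h1 : ‖z‖ < 1 := lt_one_of_lt hz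
  have h2 := hG.bd z (by rwa [mem_ball_zero_iff])
  have h3 : 0 ≤ ‖deriv F z‖ * (1 - ‖z‖ ^ 2) := by
    apply mul_nonneg (norm_nonneg _)
    have := norm_nonneg z
    nlinarith
  have h4 := Real.log_nonpos h3 h2
  unfold P
  linarith

/-- The bound for `P` from Bonk's theorem. -/
theorem P_le_of {F : ℂ → ℂ} (hG : Good F) {z : ℂ} {x t₁ ε : ℝ} (hx : ‖z‖ ≤ x)
    (hxt : x ≤ 1.73205 * t₁) (ht1 : t₁ ≤ 0.06) (hε : 0 ≤ ε)
    (hg : (1 - t₁) ^ 3 ≤ (1 + ε + ε ^ 2 / 2) * ((1 - 3 * t₁) * (1 - 3 * t₁ ^ 2))) :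
    P F z ≤ ε := by
  have h30 : (0 : ℝ) < √3 := by positivity
  have h3s : √3 * √3 = 3 := Real.mul_self_sqrt (by norm_num)
  have h3l : 1.73205 < √3 := Real.lt_sqrt_of_sq_lt (by norm_num)
  have hn := norm_nonneg z
  set t : ℝ := ‖z‖ / √3 with ht
  have hzt : ‖z‖ = √3 * t := by
    rw [ht]
    field_simp
  have ht0 : 0 ≤ t := by positivity
  have htt : t ≤ t₁ := by
    rw [ht, div_le_iff₀ h30]
    have h1 : 0 ≤ t₁ := by nlinarith
    nlinarith
  have hz : ‖z‖ < 1 / √3 := by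
    rw [hzt, lt_div_iff₀ h30]
    nlinarith
  have hb := (Spec.bonk hG hz).trans ((le_abs_self _).trans (Complex.abs_re_le_norm _))
  have e1 : √3 * ‖z‖ = 3 * t := by
    rw [hzt, ← mul_assoc, h3s]
  have e2 : ‖z‖ ^ 2 = 3 * t ^ 2 := by
    rw [hzt]
    nlinarith
  rw [e1] at hb
  have hpos : 0 < (1 - t) ^ 3 := by
    apply pow_pos
    linarith
  have hexp : 1 + ε + ε ^ 2 / 2 ≤ Real.exp ε := Real.quadratic_le_exp_of_nonneg hε
  have hcub : (1 - t) ^ 3 ≤ (1 + ε + ε ^ 2 / 2) * ((1 - 3 * t) * (1 - 3 * t ^ 2)) := by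
    set A : ℝ := 1 + ε + ε ^ 2 / 2 with hA
    have hA1 : 1 ≤ A := by
      rw [hA]
      have := sq_nonneg ε
      linarith
    have ht10 : 0 ≤ t₁ := ht0.trans htt
    have k1 : 0 ≤ (t₁ - t) * (3 * (A - 1) + 3 * (A + 1) * (t + t₁)
        - (9 * A + 1) * (t ^ 2 + t * t₁ + t₁ ^ 2)) := by
      apply mul_nonneg (by linarith)
      have k2 : t ^ 2 + t * t₁ + t₁ ^ 2 ≤ 0.12 * (t + t₁) := by nlinarith
      have k3 : (9 * A + 1) * (t ^ 2 + t * t₁ + t₁ ^ 2) ≤ (9 * A + 1) * (0.12 * (t + t₁)) :=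
        mul_le_mul_of_nonneg_left k2 (by linarith)
      nlinarith [mul_nonneg (by linarith : (0 : ℝ) ≤ A) (by linarith : 0 ≤ t + t₁)]
    nlinarith
  have hfin : Real.exp (-ε) ≤ ‖deriv F z‖ * (1 - ‖z‖ ^ 2) := by
    rw [e2]
    have hs : 0 < 1 - 3 * t ^ 2 := by nlinarith
    have hs3 : 0 < 1 - 3 * t := by linarith
    refine le_trans ?_ (mul_le_mul_of_nonneg_right hb hs.le)
    rw [Real.exp_neg, inv_eq_one_div, div_mul_eq_mul_div, div_le_div_iff₀ (Real.exp_pos _) hpos,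
      one_mul]
    refine hcub.trans ?_
    rw [mul_comm]
    exact mul_le_mul_of_nonneg_left hexp (by positivity)
  have hlog := Real.log_le_log (Real.exp_pos _) hfin
  rw [Real.log_exp] at hlog
  unfold P
  linarith

theorem P_le_095 {F f : ℂ → ℂ} (hG : Good F) (hI : Inv F f) {v : ℂ} (hv : ‖v‖ ≤ 0.095) :
    P F (f v) ≤ 0.01977 := by
  apply P_le_of hG (Spec.f_le_095 hG hI hv) (t₁ := 0.05504) <;> norm_num

theorem P_le_013 {F f : ℂ → ℂ} (hG : Good F) (hI : Inv F f) {v : ℂ} (hv : ‖v‖ ≤ 0.0128) :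
    P F (f v) ≤ 0.00034 := by
  apply P_le_of hG (Spec.f_le_013 hG hI hv) (t₁ := 0.007397) <;> norm_num

end Pool.Agent.Helper39.LC
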